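import Mathlib

/-!
# A closure of path properties which is not an interval
-/

set_option autoImplicit false

open SimpleGraph

namespace Pool.Agent.Results.MP_0ab4d0_co.ClosureNotInterval

/-- Property `P_i`: every pair of distinct vertices is joined by a path with `i` vertices. -/
def HasP {V : Type} (G : SimpleGraph V) (i : ℕ) : Prop :=
  ∀ u v : V, u ≠ v → ∃ p : G.Walk u v, p.IsPath ∧ p.support.length = i

/-- The closure of `S ⊆ {2, ..., n}`, for graphs of order `n`. -/
def closure (n : ℕ) (S : Set ℕ) : Set ℕ :=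
  {j | 2 ≤ j ∧ j ≤ n ∧ ∀ G : SimpleGraph (Fin n), (∀ i ∈ S, HasP G i) → HasP G j}

/-! ### Deciding the existence of paths of a given length -/

section Decide

variable {V : Type} [Fintype V] [DecidableEq V] (G : SimpleGraph V) [DecidableRel G.Adj]

/-- There is a path with `k` edges from `u` to `v` which avoids the list `X`. -/
def Reach : ℕ → List V → V → V → Prop
  | 0, X, u, v => u ∉ X ∧ u = v
  | k + 1, X, u, v => u ∉ X ∧ ∃ w, G.Adj u w ∧ Reach k (u :: X) w v

instance decReach : ∀ (k : ℕ) (X : List V) (u v : V), Decidable (Reach G k X u v)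
  | 0, X, u, v => by
    unfold Reach
    infer_instance
  | k + 1, X, u, v => by
    unfold Reach
    have : ∀ w, Decidable (Reach G k (u :: X) w v) := fun w => decReach k (u :: X) w v
    infer_instance

theorem reach_iff (k : ℕ) : ∀ (X : List V) (u v : V), Reach G k X u v ↔
    ∃ p : G.Walk u v, p.IsPath ∧ p.length = k ∧ ∀ x ∈ p.support, x ∉ X := by
  induction k with
  | zero =>
    intro X u v
    constructor
    · rintro ⟨h1, rfl⟩
      refine ⟨Walk.nil, Walk.IsPath.nil, rfl, ?_⟩
      intro x hx
      rw [Walk.support_nil, List.mem_singleton] at hx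
      rw [hx]
      exact h1
    · rintro ⟨p, -, hp, h⟩
      exact ⟨h u p.start_mem_support, Walk.eq_of_length_eq_zero hp⟩
  | succ k ih =>
    intro X u v
    constructor
    · rintro ⟨h1, w, hw, h2⟩
      obtain ⟨p, hp, hlen, h3⟩ := (ih _ _ _).mp h2
      refine ⟨Walk.cons hw p, ?_, ?_, ?_⟩
      · rw [Walk.cons_isPath_iff]
        exact ⟨hp, fun h => h3 u h (List.mem_cons_self)⟩
      · rw [Walk.length_cons, hlen]
      · intro x hx
        rw [Walk.support_cons, List.mem_cons] at hx
        rcases hx with rfl | hx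
        · exact h1
        · exact fun h => h3 x hx (List.mem_cons_of_mem _ h)
    · rintro ⟨p, hp, hlen, h⟩
      cases p with
      | nil => simp at hlen
      | @cons _ w _ hw q =>
        rw [Walk.cons_isPath_iff] at hp
        refine ⟨h u (Walk.start_mem_support _), w, hw, (ih _ _ _).mpr ⟨q, hp.1, ?_, ?_⟩⟩
        · rw [Walk.length_cons] at hlen
          omega
        · intro x hx hx'
          rcases List.mem_cons.mp hx' with rfl | hx'
          · exact hp.2 hx
          · exact h x (by
              rw [Walk.support_cons]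
              exact List.mem_cons_of_mem _ hx) hx'

theorem hasP_iff (k : ℕ) : HasP G (k + 1) ↔ ∀ u v : V, u ≠ v → Reach G k [] u v := by
  unfold HasP
  refine forall_congr' fun u => forall_congr' fun v => forall_congr' fun _ => ?_
  rw [reach_iff]
  refine exists_congr fun p => and_congr_right fun _ => ?_
  rw [Walk.length_support]
  constructor
  · intro h
    exact ⟨by omega, fun x _ => List.not_mem_nil⟩
  · rintro ⟨h, -⟩
    omega

end Decide

/-- A graph of order `7` with `P_4` and `P_6` but without `P_5`. -/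
def G7 : SimpleGraph (Fin 7) where
  Adj i j := (i, j) ∈ ([(1, 3), (2, 3), (0, 4), (2, 4), (0, 5), (1, 5), (1, 6), (2, 6), (3, 6),
    (4, 6), (5, 6), (3, 1), (3, 2), (4, 0), (4, 2), (5, 0), (5, 1), (6, 1), (6, 2), (6, 3),
    (6, 4), (6, 5)] : List (Fin 7 × Fin 7))
  symm := ⟨by decide⟩
  loopless := ⟨by decide⟩

instance : DecidableRel G7.Adj := by
  intro i j
  unfold G7
  infer_instance

theorem hasP4 : HasP G7 4 := (hasP_iff G7 3).mpr (by decide +kernel)

theorem hasP6 : HasP G7 6 := (hasP_iff G7 5).mpr (by decide +kernel)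

theorem not_hasP5 : ¬ HasP G7 5 := by
  rw [hasP_iff G7 4]
  decide +kernel

/-- For `n = 7` and `S = {4, 6}` the closure of `S` contains `4` and `6` but not `5`; so it is not
an interval. -/
theorem result : ∃ n : ℕ, 4 ≤ n ∧ ∃ S : Set ℕ, S ⊆ Set.Icc 4 n ∧
    (∃ a b c : ℕ, a < b ∧ b < c ∧ a ∈ closure n S ∧ b ∉ closure n S ∧ c ∈ closure n S) ∧
    ¬ ∃ r s : ℤ, ∀ i : ℕ, i ∈ closure n S ↔ r ≤ i ∧ (i : ℤ) ≤ s := by
  have h4 : 4 ∈ closure 7 {4, 6} := ⟨by norm_num, by norm_num, fun G h => h 4 (by simp)⟩
  have h6 : 6 ∈ closure 7 {4, 6} := ⟨by norm_num, by norm_num, fun G h => h 6 (by simp)⟩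
  have h5 : 5 ∉ closure 7 {4, 6} := by
    rintro ⟨-, -, h⟩
    refine not_hasP5 (h G7 ?_)
    intro i hi
    simp only [Set.mem_insert_iff, Set.mem_singleton_iff] at hi
    rcases hi with rfl | rfl
    · exact hasP4
    · exact hasP6
  refine ⟨7, by norm_num, {4, 6}, ?_, ⟨4, 5, 6, by norm_num, by norm_num, h4, h5, h6⟩, ?_⟩
  · intro i hi
    simp only [Set.mem_insert_iff, Set.mem_singleton_iff] at hi
    rw [Set.mem_Icc]
    omega
  · rintro ⟨r, s, h⟩
    have e4 := (h 4).mp h4
    have e6 := (h 6).mp h6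
    refine h5 ((h 5).mpr ⟨?_, ?_⟩)
    · have := e4.1
      push_cast at this ⊢
      omega
    · have := e6.2
      push_cast at this ⊢
      omega

end Pool.Agent.Results.MP_0ab4d0_co.ClosureNotInterval
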